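import Pool.Agent.Lib_helper72.ASN.Cut

/-!
# MP_cfd6b1_co: a bicritical snark that is not almost connected for the group of order four and exponent two

Q1 asks whether every bicritical snark is almost-A-connected for both groups A of order four. The
answer is no: there is a bicritical snark with 58 vertices and a function on its vertices with values
in the group `ZMod 2 × ZMod 2` and sum zero, not zero, which is not the boundary of a nowhere-zero
function. The snark consists of seven Petersen graphs, joined by iterated dot products. This is the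
theorem of `Pool.Agent.S11556`, by helper72, in our own words.
-/

set_option autoImplicit false

namespace Pool.Agent.Results.MP_cfd6b1_co.BicriticalSnark58

/-- `G` is 3-edge-colourable: the edges can be coloured with three colours such that different edges
with a common end have different colours. -/
def Colourable {V : Type} (G : SimpleGraph V) : Prop :=
  ∃ c : Sym2 V → Fin 3, ∀ e ∈ G.edgeSet, ∀ e' ∈ G.edgeSet, e ≠ e' →
    (∃ v : V, v ∈ e ∧ v ∈ e') → c e ≠ c e'

/-- `G` is a snark: cubic, not 3-edge-colourable, of girth at least five, and cyclically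
4-edge-connected (if both parts of a partition of the vertices contain a cycle, then at least four
edges join the two parts). -/
def IsSnark {V : Type} (G : SimpleGraph V) : Prop :=
  (∀ v : V, (G.neighborSet v).ncard = 3) ∧ ¬ Colourable G ∧ 5 ≤ G.egirth ∧
    ∀ S : Set V, ¬ (G.induce S).IsAcyclic → ¬ (G.induce Sᶜ).IsAcyclic →
      4 ≤ {e : Sym2 V | e ∈ G.edgeSet ∧ ∃ x ∈ S, ∃ y ∉ S, e = s(x, y)}.ncard

/-- `G` is bicritical: without two different vertices it is 3-edge-colourable. -/
def Bicritical {V : Type} (G : SimpleGraph V) : Prop :=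
  ∀ x y : V, x ≠ y → Colourable (G.induce {z | z ≠ x ∧ z ≠ y})

/-- `b` is the boundary of a nowhere-zero function `f` on the oriented edges of `G` (`f v u` is the
value on the edge `vu`, oriented from `v` to `u`; it changes sign with the orientation). -/
def Admissible {V A : Type} [Fintype V] [AddCommGroup A] (G : SimpleGraph V) (b : V → A) : Prop :=
  ∃ f : V → V → A, (∀ u v, f u v = -f v u) ∧ (∀ u v, G.Adj u v → f u v ≠ 0) ∧
    (∀ u v, ¬ G.Adj u v → f u v = 0) ∧ ∀ v, ∑ u, f v u = b v

open Pool.Agent.ASN in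
theorem not_colourable : ¬ Colourable Pool.Agent.ASN.G := by
  rintro ⟨c, hc⟩
  apply not_col
  refine ⟨fun u v => c s(u, v), fun u v _ => congrArg c Sym2.eq_swap, fun u v w huv huw hvw => ?_⟩
  refine hc s(u, v) huv s(u, w) huw ?_ ⟨u, Sym2.mem_mk_left u v, Sym2.mem_mk_left u w⟩
  intro h
  exact hvw (Sym2.congr_right.1 h)

open Pool.Agent.ASN in
theorem bicritical : Bicritical Pool.Agent.ASN.G := by
  intro x y hxy
  obtain ⟨c, h1, h2⟩ := bic x y hxy
  let V' := {z : Fin 58 // z ≠ x ∧ z ≠ y}
  let G' : SimpleGraph V' := G.induce {z | z ≠ x ∧ z ≠ y}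
  have hadj : ∀ u v : V', G'.Adj u v ↔ G.Adj u.1 v.1 := fun u v => Iff.rfl
  let d : Sym2 V' → Fin 3 := fun e => c (Quot.out e).1.1 (Quot.out e).2.1
  have hd : ∀ u v : V', G'.Adj u v → d s(u, v) = c u.1 v.1 := by
    intro u v huv
    have h : s((Quot.out s(u, v)).1, (Quot.out s(u, v)).2) = s(u, v) := Quot.out_eq s(u, v)
    have huv' : G.Adj u.1 v.1 := (hadj u v).1 huv
    rcases Sym2.eq_iff.1 h with ⟨e1, e2⟩ | ⟨e1, e2⟩
    · change c (Quot.out s(u, v)).1.1 (Quot.out s(u, v)).2.1 = c u.1 v.1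
      rw [e1, e2]
    · change c (Quot.out s(u, v)).1.1 (Quot.out s(u, v)).2.1 = c u.1 v.1
      rw [e1, e2]
      exact (h1 u.1 v.1 u.2.1 u.2.2 v.2.1 v.2.2 huv').symm
  have hkey : ∀ u v w : V', G'.Adj u v → G'.Adj u w → v ≠ w → d s(u, v) ≠ d s(u, w) := by
    intro u v w huv huw hvw
    rw [hd u v huv, hd u w huw]
    exact h2 u.1 v.1 w.1 u.2.1 u.2.2 v.2.1 v.2.2 w.2.1 w.2.2 huv huw
      fun h => hvw (Subtype.ext h)
  refine ⟨d, ?_⟩
  rintro e he e' he' hne ⟨u, hu, hu'⟩
  obtain ⟨v, rfl⟩ := hu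
  obtain ⟨w, rfl⟩ := hu'
  exact hkey u v w he he' fun h => hne (by rw [h])

/-- a cycle of an induced subgraph -/
theorem cycle_of_not_acyclic {V : Type} (G : SimpleGraph V) (S : Set V)
    (h : ¬ (G.induce S).IsAcyclic) :
    ∃ (v : V) (w : G.Walk v v), w.IsCycle ∧ ∀ x ∈ w.support, x ∈ S := by
  unfold SimpleGraph.IsAcyclic at h
  push Not at h
  obtain ⟨v, w, hw⟩ := h
  let φ : G.induce S →g G := (SimpleGraph.Embedding.induce (G := G) S).toHom
  have hφ : Function.Injective φ := (SimpleGraph.Embedding.induce (G := G) S).injective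
  refine ⟨φ v, w.map φ, hw.map hφ, ?_⟩
  intro x hx
  rw [SimpleGraph.Walk.support_map] at hx
  obtain ⟨z, _, rfl⟩ := List.mem_map.1 hx
  exact z.2

set_option maxRecDepth 4000 in
theorem isSnark : IsSnark Pool.Agent.ASN.G := by
  classical
  refine ⟨fun v => ?_, not_colourable, Pool.Agent.ASN.girth, fun S h1 h2 => ?_⟩
  · have h := Pool.Agent.ASN.reg v
    rw [← h, ← SimpleGraph.card_neighborSet_eq_degree, Set.ncard_eq_toFinset_card',
      Set.toFinset_card]
  · obtain ⟨v, w, hw, hS⟩ := cycle_of_not_acyclic _ S h1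
    obtain ⟨v', w', hw', hS'⟩ := cycle_of_not_acyclic _ Sᶜ h2
    refine (Pool.Agent.ASN.cyc S.toFinset ⟨v, w, hw, fun x hx => Set.mem_toFinset.2 (hS x hx)⟩
      ⟨v', w', hw', fun x hx h => hS' x hx (Set.mem_toFinset.1 h)⟩).trans ?_
    rw [← Set.ncard_coe_finset]
    refine Set.ncard_le_ncard_of_injOn (fun p => s(p.1, p.2)) ?_ ?_ (Set.toFinite _)
    · rintro ⟨x, y⟩ hp
      simp only [Finset.coe_filter, Finset.mem_univ, true_and, Set.mem_setOf_eq,
        Set.mem_toFinset] at hp
      exact ⟨hp.2.2, x, hp.1, y, hp.2.1, rfl⟩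
    · rintro ⟨x, y⟩ hp ⟨x', y'⟩ hp' h
      simp only [Finset.coe_filter, Finset.mem_univ, true_and, Set.mem_setOf_eq,
        Set.mem_toFinset] at hp hp'
      rcases Sym2.eq_iff.1 h with ⟨e1, e2⟩ | ⟨e1, e2⟩
      · exact Prod.ext e1 e2
      · have e3 : x = y' := e1
        subst e3
        exact absurd hp.1 hp'.2.1

/-- **Theorem.** There are a bicritical snark `G` with 58 vertices and a function `b` on its vertices
with values in `ZMod 2 × ZMod 2` and sum zero, not zero, that is not the boundary of a nowhere-zero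
function. So the answer to Q1 is no. -/
theorem result : ∃ G : SimpleGraph (Fin 58), IsSnark G ∧ Bicritical G ∧
    ∃ b : Fin 58 → ZMod 2 × ZMod 2, ∑ v, b v = 0 ∧ b ≠ 0 ∧ ¬ Admissible G b := by
  refine ⟨Pool.Agent.ASN.G, isSnark, bicritical, Pool.Agent.ASN.b, Pool.Agent.ASN.b_sum,
    Pool.Agent.ASN.b_ne, ?_⟩
  rintro ⟨f, h1, h2, h3, h4⟩
  exact Pool.Agent.ASN.no_flow ⟨f, h2, h3, h1, h4⟩

end Pool.Agent.Results.MP_cfd6b1_co.BicriticalSnark58
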