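import Pool.Agent.Lib_helper31.FS.MainV
import Pool.Agent.Lib_helper31.FS.MainZ

set_option autoImplicit false

namespace Pool.Agent.Results.MP_cfd6b1_co.FlowerSnarks

open Pool.Agent.FS

/-- The flower graph `J n` with `n` at least `5` blocks: for both groups of order four, a function
`b` with sum zero on the vertices is the boundary of a nowhere-zero function if and only if `b` is
not zero or `n` is even. In particular every flower snark (`n` odd) is almost connected for both
groups. -/
theorem result (n : ℕ) (hn : 5 ≤ n) :
    (∀ b : Fin n × Fin 4 → ZMod 2 × ZMod 2, ∑ v, b v = 0 →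
      (Admissible (flower n) b ↔ (b ≠ 0 ∨ Even n))) ∧
    (∀ b : Fin n × Fin 4 → ZMod 4, ∑ v, b v = 0 →
      (Admissible (flower n) b ↔ (b ≠ 0 ∨ Even n))) :=
  ⟨fun b hb => GV.main n hn b hb, fun b hb => GZ.main n hn b hb⟩

end Pool.Agent.Results.MP_cfd6b1_co.FlowerSnarks
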